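import Pool.Agent.K3h46.AS.Stm

/-!
Project AS of helper46, brick AN2: the conclusion at infinity.
-/

set_option autoImplicit false

namespace Pool.Agent.K3h4.AS

open Polynomial Pool.Agent.K3h46.AS

section laurent

variable {κ : Type} [Field κ]

theorem coeff_mul_low {x y : LaurentSeries κ} {A B : ℤ} (hx : ∀ i < A, x.coeff i = 0)
    (hy : ∀ i < B, y.coeff i = 0) :
    (∀ i < A + B, (x * y).coeff i = 0) ∧ (x * y).coeff (A + B) = x.coeff A * y.coeff B := by
  constructor
  · intro i hi
    rw [HahnSeries.coeff_mul]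
    refine Finset.sum_eq_zero fun ij hij => ?_
    rw [Finset.mem_antidiagonal] at hij
    rcases lt_or_ge ij.1 A with h | h
    · rw [hx _ h, zero_mul]
    · rw [hy ij.2 (by omega), mul_zero]
  · rw [HahnSeries.coeff_mul]
    by_cases h1 : x.coeff A = 0
    · rw [h1, zero_mul]
      refine Finset.sum_eq_zero fun ij hij => ?_
      rw [Finset.mem_antidiagonal] at hij
      rcases lt_trichotomy ij.1 A with h | h | h
      · rw [hx _ h, zero_mul]
      · rw [h, h1, zero_mul]
      · rw [hy ij.2 (by omega), mul_zero]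
    · by_cases h2 : y.coeff B = 0
      · rw [h2, mul_zero]
        refine Finset.sum_eq_zero fun ij hij => ?_
        rw [Finset.mem_antidiagonal] at hij
        rcases lt_trichotomy ij.2 B with h | h | h
        · rw [hy _ h, mul_zero]
        · rw [h, h2, mul_zero]
        · rw [hx ij.1 (by omega), zero_mul]
      · refine Finset.sum_eq_single (A, B) (fun ij hij hne => ?_) (fun h => ?_)
        · rw [Finset.mem_antidiagonal] at hij
          rcases lt_trichotomy ij.1 A with h | h | h
          · rw [hx _ h, zero_mul]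
          · exact absurd (Prod.ext h (show ij.2 = B by omega)) hne
          · rw [hy ij.2 (by omega), mul_zero]
        · exfalso
          apply h
          rw [Finset.mem_antidiagonal]
          exact ⟨h1, h2, rfl⟩

theorem coeff_pow_low {x : LaurentSeries κ} {A : ℤ} (hx : ∀ i < A, x.coeff i = 0) (n : ℕ) :
    (∀ i < (n : ℤ) * A, (x ^ n).coeff i = 0) ∧ (x ^ n).coeff ((n : ℤ) * A) = x.coeff A ^ n := by
  induction n with
  | zero =>
    constructor
    · intro i hi
      rw [Nat.cast_zero, zero_mul] at hi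
      rw [pow_zero, HahnSeries.coeff_one, if_neg hi.ne]
    · rw [Nat.cast_zero, zero_mul, pow_zero, pow_zero, HahnSeries.coeff_one, if_pos rfl]
  | succ n ih =>
    have h1 := coeff_mul_low ih.1 hx
    have h2 : ((n + 1 : ℕ) : ℤ) * A = (n : ℤ) * A + A := by push_cast; ring
    rw [h2, pow_succ, pow_succ, ← ih.2]
    exact h1

theorem coeff_theta_iter (θ : Derivation ℤ (LaurentSeries κ) (LaurentSeries κ))
    (hθ : ∀ (z : LaurentSeries κ) (n : ℤ), (θ z).coeff n = (n : κ) * z.coeff n)
    (z : LaurentSeries κ) (i : ℤ) (n : ℕ) : ((⇑θ)^[n] z).coeff i = (i : κ) ^ n * z.coeff i := by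
  induction n with
  | zero => rw [Function.iterate_zero, id, pow_zero, one_mul]
  | succ n ih => rw [Function.iterate_succ_apply', hθ, ih, pow_succ', mul_assoc]

theorem coeff_Delta_iter (δ : Derivation ℤ κ κ) (D : Derivation ℤ (LaurentSeries κ) (LaurentSeries κ))
    (hD : ∀ (z : LaurentSeries κ) (n : ℤ), (D z).coeff n = δ (z.coeff n))
    (z : LaurentSeries κ) (i : ℤ) (n : ℕ) : ((⇑D)^[n] z).coeff i = (⇑δ)^[n] (z.coeff i) := by
  induction n with
  | zero => rfl
  | succ n ih => rw [Function.iterate_succ_apply', hD, ih, Function.iterate_succ_apply']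

end laurent

section der

variable {R : Type} [CommRing R] (δ : Derivation ℤ R R)

theorem iter_const_mul (c : R) (hc : δ c = 0) (z : R) (n : ℕ) :
    (⇑δ)^[n] (c * z) = c * (⇑δ)^[n] z := by
  induction n with
  | zero => rfl
  | succ n ih =>
    rw [Function.iterate_succ_apply', ih, Function.iterate_succ_apply', Derivation.leibniz, hc,
      smul_zero, add_zero, smul_eq_mul]

theorem iter_zero (n : ℕ) : (⇑δ)^[n] 0 = 0 := by
  induction n with
  | zero => rfl
  | succ n ih => rw [Function.iterate_succ_apply', ih, map_zero]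

theorem der_pow_char (p : ℕ) [CharP R p] (c : R) : δ (c ^ p) = 0 := by
  rw [Derivation.leibniz_pow, ← Nat.cast_smul_eq_nsmul R, CharP.cast_eq_zero, zero_smul]

end der

section poly

variable {F : Type} [Field F]

theorem iter_der_add (a b : F[X]) (n : ℕ) :
    (⇑derivative)^[n] (a + b) = (⇑derivative)^[n] a + (⇑derivative)^[n] b :=
  iterate_map_add derivative n a b

theorem iter_der_nat (c : ℕ) (a : F[X]) (n : ℕ) :
    (⇑derivative)^[n] ((c : F[X]) * a) = (c : F[X]) * (⇑derivative)^[n] a := by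
  rw [← nsmul_eq_mul, ← nsmul_eq_mul]
  exact Polynomial.iterate_derivative_smul (c : ℕ) a n

end poly

theorem main_AN2 (hLOG : S_LOG) : S_AN2 := by
  intro p hpf d m F _ _ hd hdp hm φ g J s hφd hφi hord hg hrel κ _ _ ι hι δ hδ hδp θ D hθ hD
    β₁ β₂ η₁ η₂ hF h1 h2 h3
  have hp := hpf.out
  have hp2 := hp.two_le
  obtain ⟨k, hk⟩ := hdp
  have hkd : (p - 1) / d = k := by
    rw [hk]
    exact Nat.mul_div_cancel_left k hd
  have hk1 : 1 ≤ k := by
    rcases Nat.eq_zero_or_pos k with h | h
    · rw [h, Nat.mul_zero] at hk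
      omega
    · exact h
  have hdle : d ≤ p - 1 := Nat.le_of_dvd (by omega) ⟨k, hk⟩
  rw [hkd] at hrel
  have hφ0 : φ ≠ 0 := hφi.ne_zero
  have hιφ : ι φ ≠ 0 := by
    intro h
    exact hφ0 (hι (by rw [h, map_zero]))
  have hcast : ∀ n : ℕ, 0 < n → n < p → (n : κ) ≠ 0 := by
    intro n h0 hn h
    rw [CharP.cast_eq_zero_iff κ p] at h
    exact absurd (Nat.le_of_dvd h0 h) (by omega)
  have hcastF : (d : F[X]) ≠ 0 := by
    intro h
    have h5 : ((d : ℕ) : κ) = 0 := by
      have := congrArg ι h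
      rwa [map_natCast, map_zero] at this
    exact hcast d hd (by omega) h5
  have hp0 : (p : κ) = 0 := CharP.cast_eq_zero κ p
  have hpz : (1 : ℤ) < (p : ℤ) := by exact_mod_cast hp.one_lt
  -- iterates of the derivative of polynomials
  have hιder : ∀ (n : ℕ) (h : F[X]), ι ((⇑derivative)^[n] h) = (⇑δ)^[n] (ι h) := by
    intro n h
    induction n with
    | zero => rfl
    | succ n ih => rw [Function.iterate_succ_apply', ← hδ, ih, Function.iterate_succ_apply']
  have hderp : ∀ h : F[X], (⇑derivative)^[p] h = 0 := by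
    intro h
    apply hι
    rw [hιder, hδp, map_zero]
  have hdp1 : ∀ h : F[X], (⇑derivative)^[p - 1] (derivative h) = 0 := by
    intro h
    rw [← Function.iterate_succ_apply, show (p - 1).succ = p from by omega, hderp]
  -- (1)
  have e1 : ∀ i : ℤ, i < 0 → i < (d : ℤ) - m → η₁.coeff i = 0 := by
    intro i hi0 hi
    by_contra hne
    have hη : η₁ ≠ 0 := by
      rintro rfl
      exact hne rfl
    obtain ⟨o, ho⟩ : ∃ o, o = η₁.order := ⟨_, rfl⟩
    have hoi : o ≤ i := by
      rw [ho]
      exact HahnSeries.order_le_of_coeff_ne_zero hne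
    have ho1 : ∀ j < o, η₁.coeff j = 0 := by
      intro j hj
      rw [ho] at hj
      exact HahnSeries.coeff_eq_zero_of_lt_order hj
    have ho2 : η₁.coeff o ≠ 0 := by
      rw [ho]
      exact HahnSeries.coeff_order_eq_zero.not.2 hη
    have h4 := (coeff_pow_low ho1 p).2
    rw [h1, HahnSeries.coeff_sub, coeff_theta_iter θ hθ, HahnSeries.coeff_add] at h4
    have h5 : β₁.coeff ((p : ℤ) * o) = 0 := by
      apply hF.b1
      have : (d : ℤ) < p := by
        have : d < p := by omega
        exact_mod_cast this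
      nlinarith
    have h6 : η₁.coeff ((p : ℤ) * o) = 0 := ho1 _ (by nlinarith)
    rw [h5, h6, add_zero, mul_zero, sub_zero] at h4
    exact ho2 (pow_eq_zero_iff hp.ne_zero |>.1 h4.symm)
  -- (2)
  have e2 : ∀ i : ℤ, i < -(m : ℤ) → η₂.coeff i = 0 := by
    intro i hi
    by_contra hne
    have hη : η₂ ≠ 0 := by
      rintro rfl
      exact hne rfl
    obtain ⟨o, ho⟩ : ∃ o, o = η₂.order := ⟨_, rfl⟩
    have hoi : o ≤ i := by
      rw [ho]
      exact HahnSeries.order_le_of_coeff_ne_zero hne
    have ho1 : ∀ j < o, η₂.coeff j = 0 := by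
      intro j hj
      rw [ho] at hj
      exact HahnSeries.coeff_eq_zero_of_lt_order hj
    have ho2 : η₂.coeff o ≠ 0 := by
      rw [ho]
      exact HahnSeries.coeff_order_eq_zero.not.2 hη
    have h4 := (coeff_pow_low ho1 p).2
    rw [h2, HahnSeries.coeff_neg, coeff_Delta_iter δ D hD, HahnSeries.coeff_add] at h4
    have h5 : β₂.coeff ((p : ℤ) * o) = 0 := by
      apply hF.b2
      nlinarith
    have h6 : η₂.coeff ((p : ℤ) * o) = 0 := ho1 _ (by nlinarith)
    rw [h5, h6, add_zero, iter_zero, neg_zero] at h4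
    exact ho2 (pow_eq_zero_iff hp.ne_zero |>.1 h4.symm)
  obtain ⟨e, he⟩ : ∃ e, e = η₂.coeff (-(m : ℤ)) := ⟨_, rfl⟩
  have e3 : (d : κ) * e ^ p =
      -(ι φ ^ (k * p * m) * ι ((⇑derivative)^[p - 1] (φ ^ (m * k - 1) * J))) := by
    have h4 := (coeff_pow_low e2 p).2
    rw [h2, HahnSeries.coeff_neg, coeff_Delta_iter δ D hD, HahnSeries.coeff_add, ← he] at h4
    have h5 : η₂.coeff ((p : ℤ) * -(m : ℤ)) = 0 := e2 _ (by nlinarith)
    have h6 : (p : ℤ) * -(m : ℤ) = -((p : ℤ) * m) := by ring
    rw [h5, add_zero, h6] at h4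
    have h7 := hF.b2t
    rw [hkd] at h7
    rw [← h4, mul_neg, ← iter_const_mul δ (d : κ) (Derivation.map_natCast δ d), h7,
      show k * p * m = (k * m) * p from by ring, pow_mul,
      iter_const_mul δ _ (der_pow_char δ p _), hιder]
  have e4 : ∀ i : ℤ, (i : κ) * η₂.coeff i - δ (η₁.coeff i) = (D β₁ - θ β₂).coeff i := by
    intro i
    have h4 := congrArg (fun z : LaurentSeries κ => z.coeff i) h3
    beta_reduce at h4
    rw [map_add, map_add, HahnSeries.coeff_add, HahnSeries.coeff_add, hθ η₂, hD η₁] at h4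
    rw [HahnSeries.coeff_sub]
    linear_combination h4
  rcases lt_trichotomy m d with hmd | hmd | hmd
  · -- m < d
    have h4 := e4 (-(m : ℤ))
    have hmd' : (m : ℤ) < d := by exact_mod_cast hmd
    have hm' : (1 : ℤ) ≤ m := by exact_mod_cast hm
    rw [e1 (-(m : ℤ)) (by omega) (by omega), map_zero, sub_zero, ← he,
      hF.b3 (-(m : ℤ)) (by nlinarith)] at h4
    have h5 : ((-(m : ℤ) : ℤ) : κ) ≠ 0 := by
      push_cast
      exact neg_ne_zero.2 (hcast m (by omega) (by omega))
    have h6 : e = 0 := (mul_eq_zero.1 h4).resolve_left h5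
    rw [h6, zero_pow hp.ne_zero, mul_zero] at e3
    have h7 : ι ((⇑derivative)^[p - 1] (φ ^ (m * k - 1) * J)) = 0 := by
      have := neg_eq_zero.1 e3.symm
      exact (mul_eq_zero.1 this).resolve_left (pow_ne_zero _ hιφ)
    have h8 : (⇑derivative)^[p - 1] (φ ^ (m * k - 1) * J) = 0 := hι (by rw [h7, map_zero])
    have h9 := congrArg (⇑derivative)^[p - 1] hrel
    rw [iter_der_nat, h8, mul_zero, iter_der_add, iter_der_nat, iter_der_nat, hdp1, mul_zero,
      add_zero] at h9
    have h10 := (mul_eq_zero.1 h9.symm).resolve_left hcastF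
    refine hord m hmd g hg ?_
    rw [hkd]
    exact h10
  · -- m = d
    subst hmd
    have hkm : k * (p + 1) * m = p ^ 2 - 1 := by
      have h5 : p = m * k + 1 := by omega
      have h6 : p ^ 2 - 1 = (p + 1) * (p - 1) := by
        have := Nat.sq_sub_sq p 1
        rw [one_pow] at this
        exact this
      rw [h6, hk]
      ring
    have h4 := e4 (-(m : ℤ))
    have hm' : (1 : ℤ) ≤ m := by exact_mod_cast hm
    have h5 : -((p : ℤ) * m - m * (p - 1)) = -(m : ℤ) := by ring
    have h6 := hF.b3t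
    rw [h5, ← h4, e1 (-(m : ℤ)) (by omega) (by omega), map_zero, sub_zero, ← he, hkd, hkm] at h6
    have h7 : (m : κ) * e = ι φ ^ (p - 1) * ι g := by
      have h8 : ι φ ^ (p ^ 2 - 1) ≠ 0 := pow_ne_zero _ hιφ
      apply mul_left_cancel₀ h8
      push_cast at h6
      linear_combination -h6
    have h9 : (m : κ) ^ p = (m : κ) := by
      rw [← frobenius_def, map_natCast]
    have h10 : ((m : κ) * e) ^ p = (m : κ) * e ^ p := by rw [mul_pow, h9]
    have h11 : m * k = p - 1 := hk.symm
    rw [e3, h7, mul_pow, ← pow_mul, show k * p * m = (p - 1) * p from by rw [← h11]; ring] at h10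
    have h12 : ι (g ^ p) = ι (-((⇑derivative)^[p - 1] (φ ^ (m * k - 1) * J))) := by
      rw [map_pow, map_neg]
      apply mul_left_cancel₀ (pow_ne_zero ((p - 1) * p) hιφ)
      rw [h10]
      ring
    have h13 := hι h12
    have h14 : φ ^ (m * k - 1) * J = φ ^ (m * k) * g + derivative (φ ^ (m * k) * s) := by
      apply mul_left_cancel₀ hcastF
      rw [hrel]
      ring
    rw [h14, iter_der_add, hdp1, add_zero, h11] at h13
    refine hLOG p F φ g hφi ?_ ?_ ?_
    · rw [hφd]
      intro h
      exact absurd (Nat.le_of_dvd hd h) (by omega)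
    · rw [hφd]
      exact hg
    · rw [h13]
      ring
  · -- m > d
    have hmd' : (d : ℤ) < m := by exact_mod_cast hmd
    have h4 := e4 (-((p : ℤ) * m - d * (p - 1)))
    have h5 : -((p : ℤ) * m - d * (p - 1)) < -(m : ℤ) := by nlinarith
    have hm' : (1 : ℤ) ≤ m := by exact_mod_cast hm
    have hd' : (1 : ℤ) ≤ d := by exact_mod_cast hd
    rw [e1 _ (by omega) (by omega), e2 _ h5, mul_zero, map_zero, sub_zero] at h4
    have h6 := hF.b3t
    rw [← h4, zero_mul] at h6
    have h7 := (mul_eq_zero.1 (neg_eq_zero.1 h6.symm)).resolve_left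
      (mul_ne_zero (pow_ne_zero _ hιφ) (pow_ne_zero _ hιφ))
    exact hι (by rw [h7, map_zero])

theorem t_AN2 : S_LOG → S_AN2 := main_AN2

end Pool.Agent.K3h4.AS
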