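import Pool.Agent.K3h46.AS.Stm

/-!
Project AS of helper46, brick JAC: Jacobson's identity for a derivation in characteristic `p`.
-/

set_option autoImplicit false

namespace Pool.Agent.K3h4.AS

open Polynomial

section ring

variable {A : Type*} [Ring A] (p : ℕ) [hp : Fact p.Prime] [CharP A p]

theorem choose_pred (i : ℕ) (hi : i < p) : (((p - 1).choose i : ℕ) : A) = (-1) ^ i := by
  induction i with
  | zero => rw [Nat.choose_zero_right, Nat.cast_one, pow_zero]
  | succ i ih =>
    have h1 : (p - 1).choose (i + 1) + (p - 1).choose i = p.choose (i + 1) := by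
      obtain ⟨q, hq⟩ : ∃ q, p = q + 1 := ⟨p - 1, by have := hp.out.pos; omega⟩
      rw [hq, Nat.add_sub_cancel, Nat.choose_succ_succ]
      exact Nat.add_comm _ _
    have h2 : ((p.choose (i + 1) : ℕ) : A) = 0 :=
      (CharP.cast_eq_zero_iff A p _).2 (hp.out.dvd_choose_self (by omega) hi)
    have h3 : (((p - 1).choose (i + 1) : ℕ) : A) + (((p - 1).choose i : ℕ) : A) = 0 := by
      rw [← Nat.cast_add, h1, h2]
    rw [ih (by omega)] at h3
    rw [pow_succ, mul_neg, mul_one]
    exact eq_neg_of_add_eq_zero_left h3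

theorem neg_one_pow_pred : (-1 : A) ^ (p - 1) = 1 := by
  have h1 := choose_pred (A := A) p (p - 1) (by have := hp.out.pos; omega)
  rw [Nat.choose_self, Nat.cast_one] at h1
  exact h1.symm

theorem sub_pow_pred {x y : A} (h : Commute x y) :
    (x - y) ^ (p - 1) = ∑ m ∈ Finset.range p, x ^ m * y ^ (p - 1 - m) := by
  have hp0 := hp.out.pos
  rw [sub_eq_add_neg, h.neg_right.add_pow, Nat.sub_add_cancel hp0]
  refine Finset.sum_congr rfl fun m hm => ?_
  rw [Finset.mem_range] at hm
  rw [choose_pred p m hm, neg_pow, mul_assoc, mul_assoc,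
    (((Commute.neg_one_left y).pow_left m).pow_right (p - 1 - m)).symm.eq, ← mul_assoc ((-1) ^ _),
    ← pow_add, show p - 1 - m + m = p - 1 from by omega, neg_one_pow_pred, one_mul]

omit hp in
theorem charP_end : CharP (Module.End ℤ A) p :=
  charP_of_injective_ringHom (f := (Algebra.lmul ℤ A).toRingHom) (fun a b h => by
    have h1 := LinearMap.congr_fun (show Algebra.lmul ℤ A a = Algebra.lmul ℤ A b from h) 1
    rw [Algebra.coe_lmul_eq_mul, LinearMap.mul_apply', LinearMap.mul_apply', mul_one, mul_one] at h1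
    exact h1) p

theorem ad_pow_char (x y : A) :
    ((LinearMap.mulLeft ℤ x - LinearMap.mulRight ℤ x) ^ p) y = x ^ p * y - y * x ^ p := by
  have := charP_end (A := A) p
  have h1 := sub_pow_expChar_of_commute p (LinearMap.commute_mulLeft_right (R := ℤ) x x)
  rw [h1, LinearMap.pow_mulLeft, LinearMap.pow_mulRight, LinearMap.sub_apply,
    LinearMap.mulLeft_apply, LinearMap.mulRight_apply]

theorem ad_pow_pred (x y : A) :
    ((LinearMap.mulLeft ℤ x - LinearMap.mulRight ℤ x) ^ (p - 1)) y =
      ∑ m ∈ Finset.range p, x ^ m * (y * x ^ (p - 1 - m)) := by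
  have := charP_end (A := A) p
  rw [sub_pow_pred p (LinearMap.commute_mulLeft_right (R := ℤ) x x), LinearMap.sum_apply]
  refine Finset.sum_congr rfl fun m _ => ?_
  rw [Module.End.mul_apply, LinearMap.pow_mulLeft, LinearMap.pow_mulRight,
    LinearMap.mulLeft_apply, LinearMap.mulRight_apply]

end ring

section der

variable {R : Type*} [CommRing R]

/-- the operator `δ + a` -/
noncomputable def TT (δ : Derivation ℤ R R) (a : R) : Module.End ℤ R :=
  (δ : R →ₗ[ℤ] R) + LinearMap.mulLeft ℤ a

theorem TT_apply (δ : Derivation ℤ R R) (a s : R) : TT δ a s = δ s + a * s := rfl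

theorem TT_pow (δ : Derivation ℤ R R) (a s : R) (n : ℕ) :
    (TT δ a ^ n) s = (fun s : R => δ s + a * s)^[n] s := by
  rw [Module.End.pow_apply]
  rfl

theorem ad_TT (δ : Derivation ℤ R R) (a b : R) (n : ℕ) :
    ((LinearMap.mulLeft ℤ (TT δ a) - LinearMap.mulRight ℤ (TT δ a)) ^ n)
      (LinearMap.mulLeft ℤ b : Module.End ℤ R) = LinearMap.mulLeft ℤ ((⇑δ)^[n] b) := by
  induction n with
  | zero => rw [pow_zero, Function.iterate_zero]; rfl
  | succ n ih =>
    rw [pow_succ', Module.End.mul_apply, ih, Function.iterate_succ_apply']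
    apply LinearMap.ext
    intro s
    rw [LinearMap.sub_apply, LinearMap.mulLeft_apply, LinearMap.mulRight_apply,
      LinearMap.sub_apply, Module.End.mul_apply, Module.End.mul_apply, LinearMap.mulLeft_apply,
      LinearMap.mulLeft_apply, TT_apply, TT_apply, LinearMap.mulLeft_apply, Derivation.leibniz,
      smul_eq_mul, smul_eq_mul]
    ring

theorem charP_E (p : ℕ) [Fact p.Prime] [CharP R p] : CharP (Module.End ℤ R) p := charP_end p

theorem TT_pow_char (p : ℕ) [hp : Fact p.Prime] [CharP R p] (δ : Derivation ℤ R R) (a b : R) :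
    (TT δ a ^ p) b = (⇑δ)^[p] b + (TT δ a ^ p) 1 * b := by
  have := charP_E (R := R) p
  have h1 := ad_pow_char p (TT δ a) (LinearMap.mulLeft ℤ b : Module.End ℤ R)
  rw [ad_TT] at h1
  have h2 := LinearMap.congr_fun h1 1
  rw [LinearMap.sub_apply, Module.End.mul_apply, Module.End.mul_apply, LinearMap.mulLeft_apply,
    LinearMap.mulLeft_apply, LinearMap.mulLeft_apply, mul_one, mul_one] at h2
  rw [h2]
  ring

theorem TT_pow_pred (p : ℕ) [hp : Fact p.Prime] [CharP R p] (δ : Derivation ℤ R R) (a b : R) :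
    (⇑δ)^[p - 1] b = ∑ m ∈ Finset.range p, (TT δ a ^ m) (b * (TT δ a ^ (p - 1 - m)) 1) := by
  have := charP_E (R := R) p
  have h1 := ad_pow_pred p (TT δ a) (LinearMap.mulLeft ℤ b : Module.End ℤ R)
  rw [ad_TT] at h1
  have h2 := LinearMap.congr_fun h1 1
  rw [LinearMap.sum_apply, LinearMap.mulLeft_apply, mul_one] at h2
  rw [h2]
  refine Finset.sum_congr rfl fun m _ => ?_
  rw [Module.End.mul_apply, Module.End.mul_apply, LinearMap.mulLeft_apply]

end der

section poly

variable {R : Type*} [CommRing R]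

/-- the derivations of a ring -/
abbrev Der (A : Type*) [CommRing A] := Derivation ℤ A A

/-- the derivation acting on the coefficients -/
noncomputable def mc (δ : Derivation ℤ R R) : Der R[X] :=
  letI : Differential R := ⟨δ⟩
  Derivation.mk' (AddMonoidHom.toIntLinearMap
    ⟨⟨fun f => Differential.mapCoeffs f, map_zero _⟩, map_add _⟩)
    (fun a b => Derivation.leibniz Differential.mapCoeffs a b)

theorem coeff_mc (δ : Derivation ℤ R R) (f : R[X]) (n : ℕ) :
    (mc δ f).coeff n = δ (f.coeff n) := rfl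

theorem mc_C (δ : Derivation ℤ R R) (a : R) : mc δ (C a) = C (δ a) := by
  ext n
  rw [coeff_mc, coeff_C, coeff_C]
  split_ifs
  · rfl
  · exact map_zero δ

/-- the polynomials `(δ + Y a) ^ n 1` -/
noncomputable def fp (δ : Derivation ℤ R R) (a : R) (n : ℕ) : R[X] := (TT (mc δ) (X * C a) ^ n) 1

variable (δ : Derivation ℤ R R)

theorem fp_zero (a : R) : fp δ a 0 = 1 := by
  unfold fp
  rw [pow_zero]
  rfl

theorem fp_succ (a : R) (n : ℕ) : fp δ a (n + 1) = mc δ (fp δ a n) + X * C a * fp δ a n := by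
  unfold fp
  rw [pow_succ', Module.End.mul_apply, TT_apply]

theorem derivative_map (f : R[X]) : derivative (mc δ f) = mc δ (derivative f) := by
  ext n
  rw [coeff_derivative, coeff_mc, coeff_mc, coeff_derivative, Derivation.leibniz]
  have h1 : δ ((n : R) + 1) = 0 := by
    have h2 : ((n : R) + 1) = ((n + 1 : ℕ) : R) := by push_cast; rfl
    rw [h2]
    exact Derivation.map_natCast _ _
  rw [h1, smul_zero, zero_add, smul_eq_mul, mul_comm]

theorem derivative_fp (a : R) (n : ℕ) : derivative (fp δ a n) = ∑ m ∈ Finset.range n,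
    (TT (mc δ) (X * C a) ^ m) (C a * fp δ a (n - 1 - m)) := by
  induction n with
  | zero => rw [fp_zero, Finset.range_zero, Finset.sum_empty, derivative_one]
  | succ n ih =>
    rw [fp_succ, derivative_add, derivative_map, mul_assoc, derivative_mul, derivative_X, one_mul,
      derivative_C_mul, Finset.sum_range_succ']
    have h1 : ∑ m ∈ Finset.range n,
        (TT (mc δ) (X * C a) ^ (m + 1)) (C a * fp δ a (n + 1 - 1 - (m + 1))) =
        TT (mc δ) (X * C a) (derivative (fp δ a n)) := by
      rw [ih, map_sum]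
      refine Finset.sum_congr rfl fun m _ => ?_
      rw [pow_succ', Module.End.mul_apply, show n + 1 - 1 - (m + 1) = n - 1 - m from by omega]
    rw [h1, TT_apply, pow_zero, Nat.add_sub_cancel, Nat.sub_zero]
    show _ = _ + C a * fp δ a n
    ring

theorem natDegree_fp (a : R) (n : ℕ) : (fp δ a n).natDegree ≤ n ∧ (fp δ a n).coeff n = a ^ n := by
  induction n with
  | zero => rw [fp_zero]; exact ⟨natDegree_one.le, by rw [coeff_one_zero, pow_zero]⟩
  | succ n ih =>
    constructor
    · rw [natDegree_le_iff_coeff_eq_zero]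
      intro N hN
      obtain ⟨M, rfl⟩ : ∃ M, N = M + 1 := ⟨N - 1, by omega⟩
      rw [fp_succ, coeff_add, coeff_mc, mul_assoc, coeff_X_mul, coeff_C_mul,
        natDegree_le_iff_coeff_eq_zero.1 ih.1 _ (by omega), natDegree_le_iff_coeff_eq_zero.1 ih.1 _
        (by omega), map_zero, mul_zero, add_zero]
    · rw [fp_succ, coeff_add, coeff_mc, mul_assoc, coeff_X_mul, coeff_C_mul,
        natDegree_le_iff_coeff_eq_zero.1 ih.1 _ (by omega), ih.2, map_zero, zero_add, pow_succ']

theorem coeff_zero_fp (a : R) (n : ℕ) : (fp δ a (n + 1)).coeff 0 = 0 := by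
  induction n with
  | zero =>
    rw [fp_succ, fp_zero, coeff_add, coeff_mc, mul_assoc, coeff_X_mul_zero,
      coeff_one_zero, add_zero]
    exact Derivation.map_one_eq_zero _
  | succ n ih =>
    rw [fp_succ, coeff_add, coeff_mc, mul_assoc, coeff_X_mul_zero, ih, map_zero, add_zero]

theorem eval_mc (f : R[X]) : (mc δ f).eval 1 = δ (f.eval 1) := by
  let _ : Differential R := ⟨δ⟩
  have h1 := Differential.deriv_aeval_eq (A := R) (R := R) (1 : R) f
  have h2 : Differential.deriv (1 : R) = 0 := Derivation.map_one_eq_zero _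
  rw [h2, mul_zero, add_zero] at h1
  exact h1.symm

theorem eval_one_fp (a : R) (n : ℕ) : (fp δ a n).eval 1 = (TT δ a ^ n) 1 := by
  induction n with
  | zero => rw [fp_zero, eval_one, pow_zero]; rfl
  | succ n ih =>
    rw [fp_succ, pow_succ', Module.End.mul_apply, ← ih, TT_apply, eval_add, eval_mul, eval_mul,
      eval_X, one_mul, eval_C, eval_mc]

theorem TT_pow_one (p : ℕ) [hp : Fact p.Prime] [CharP R p] (a : R) :
    (TT δ a ^ p) 1 = a ^ p + (⇑δ)^[p - 1] a := by
  have hp2 := hp.out.two_le
  rw [← eval_one_fp]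
  have h1 := derivative_fp δ a p
  have h2 := TT_pow_pred p (mc δ) (X * C a) (C a)
  have h3 : derivative (fp δ a p) = (⇑(mc δ))^[p - 1] (C a) := by
    rw [h1, h2]
    rfl
  have h4 : ∀ n : ℕ, (⇑(mc δ))^[n] (C a) = C ((⇑δ)^[n] a) := by
    intro n
    induction n with
    | zero => rfl
    | succ n ih => rw [Function.iterate_succ_apply', ih, Function.iterate_succ_apply', mc_C]
  rw [h4] at h3
  have h5 : ∀ i : ℕ, (fp δ a p).coeff (i + 1) * ((i : R) + 1) =
      (C ((⇑δ)^[p - 1] a)).coeff i := by
    intro i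
    rw [← h3, coeff_derivative]
  have h6 : (fp δ a p).coeff 1 = (⇑δ)^[p - 1] a := by
    have := h5 0
    rw [Nat.cast_zero, zero_add, zero_add, mul_one, coeff_C_zero] at this
    exact this
  have h7 : ∀ i ∈ Finset.range p, i ≠ 1 → (fp δ a p).coeff i = 0 := by
    intro i hi hi1
    rw [Finset.mem_range] at hi
    rcases Nat.eq_zero_or_pos i with h0 | h0
    · rw [h0]
      obtain ⟨q, hq⟩ : ∃ q, p = q + 1 := ⟨p - 1, by omega⟩
      rw [hq]
      exact coeff_zero_fp δ a q
    · obtain ⟨j, hj⟩ : ∃ j, i = j + 1 + 1 := ⟨i - 2, by omega⟩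
      have h8 := h5 (j + 1)
      rw [coeff_C_succ] at h8
      have h9 : IsUnit (((j + 1 : ℕ) : R) + 1) := by
        have h10 : (((j + 1 : ℕ) : R) + 1) = ((j + 1 + 1 : ℕ) : R) := by push_cast; ring
        rw [h10, CharP.isUnit_natCast_iff hp.out]
        intro hd
        have := Nat.le_of_dvd (by omega) hd
        omega
      rw [hj]
      exact (h9.mul_left_eq_zero).1 h8
  rw [eval_eq_sum_range' (show (fp δ a p).natDegree < p + 1 from by
    have := (natDegree_fp δ a p).1
    omega), Finset.sum_range_succ, (natDegree_fp δ a p).2, one_pow, mul_one]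
  rw [Finset.sum_eq_single 1 (fun i hi hi1 => by rw [h7 i hi hi1, zero_mul])
    (fun h => absurd (Finset.mem_range.2 (by omega)) h), h6, one_pow, mul_one, add_comm]

end poly

theorem t_JAC : Pool.Agent.K3h46.AS.S_JAC := by
  intro p _ R _ _ δ a r
  have h1 : (TT δ a ^ p) r = (fun s : R => δ s + a * s)^[p] r := by
    rw [Module.End.pow_apply]
    rfl
  rw [← h1, TT_pow_char p δ a r, TT_pow_one δ p a]

end Pool.Agent.K3h4.AS
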