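import Pool.Agent.K3h4.AS.PicC

/-!
Project AS of helper46, brick PIC: Cartier descent for invertible modules.
-/

set_option autoImplicit false
set_option linter.unusedSectionVars false

open scoped KaehlerDifferential

namespace Pool.Agent.K3h4.AS

open Pool.Agent.K3h46.AS

variable {p : ℕ} [hp : Fact p.Prime] {B L : Type} [CommRing B] [IsDomain B] [Field L] [Algebra B L]
  [IsFractionRing B L] [CharP L p]

/-- the property of the forms of the surface -/
def FormProp (T : Dat p B L) : Prop :=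
  ∀ a b : B, form (algebraMap B L T.x) (algebraMap B L T.t) (algebraMap B L a)
    (algebraMap B L b) ∈ Triv p L →
      ∃ c g h : B, a = T.δ1 c + g ^ p * T.x ^ (p - 1) - g ∧ b = T.δ2 c + h ^ p * T.t ^ (p - 1) - h

theorem form_mem (T : Dat p B L) {n : ℕ} (z y : Fin n → L) :
    form (algebraMap B L T.x) (algebraMap B L T.t)
      (∑ j, (z j * y j) ^ p * (T.d1 (z j) / z j) - ∑ j, (z j * y j) * (T.d1 (z j) / z j))
      (∑ j, (z j * y j) ^ p * (T.d2 (z j) / z j) - ∑ j, (z j * y j) * (T.d2 (z j) / z j)) ∈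
      Triv p L := by
  have h1 : form (algebraMap B L T.x) (algebraMap B L T.t)
      (∑ j, (z j * y j) ^ p * (T.d1 (z j) / z j) - ∑ j, (z j * y j) * (T.d1 (z j) / z j))
      (∑ j, (z j * y j) ^ p * (T.d2 (z j) / z j) - ∑ j, (z j * y j) * (T.d2 (z j) / z j)) =
      ∑ j, (((z j * y j) ^ p - z j * y j) * (z j)⁻¹) • KaehlerDifferential.D ℤ L (z j) := by
    unfold form
    rw [← Finset.sum_sub_distrib, ← Finset.sum_sub_distrib, Finset.sum_smul, Finset.sum_smul,
      ← Finset.sum_add_distrib]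
    refine Finset.sum_congr rfl fun j _ => ?_
    have h2 := T.G_all (z j)
    unfold Dat.G at h2
    rw [h2, smul_add, smul_smul, smul_smul]
    congr 2
    · rw [div_eq_mul_inv]
      ring
    · rw [div_eq_mul_inv]
      ring
  rw [h1]
  refine sum_mem fun j _ => ?_
  by_cases hz : z j = 0
  · rw [hz, map_zero, smul_zero]
    exact zero_mem _
  · exact AddSubgroup.subset_closure (Or.inr ⟨z j * y j, z j, hz, rfl⟩)

/-- the connection -/
theorem exists_conn (T : Dat p B L) (hT : FormProp T) {I I' : Submodule B L} (hI : I * I' = 1) :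
    ∃ ξ1 ξ2 : L, Fl p T.d1 ξ1 ∧ Fl p T.d2 ξ2 ∧ T.d1 ξ2 = T.d2 ξ1 ∧
      (∀ v ∈ I, T.d1 v - v * ξ1 ∈ I) ∧ ∀ v ∈ I, T.d2 v - v * ξ2 ∈ I := by
  obtain ⟨n, z, y, hz, hy, hzy⟩ := exists_pou hI
  have hr1 : ∀ r ∈ (algebraMap B L).range, T.d1 r ∈ (algebraMap B L).range := by
    rintro r ⟨b, rfl⟩
    rw [T.h1]
    exact ⟨_, rfl⟩
  have hr2 : ∀ r ∈ (algebraMap B L).range, T.d2 r ∈ (algebraMap B L).range := by
    rintro r ⟨b, rfl⟩
    rw [T.h2]
    exact ⟨_, rfl⟩
  obtain ⟨a1, ha1⟩ := mem_diff (p := p) hI T.d1 hr1 z y hz hy hzy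
  obtain ⟨a2, ha2⟩ := mem_diff (p := p) hI T.d2 hr2 z y hz hy hzy
  have h1 := form_mem T z y
  rw [← ha1, ← ha2] at h1
  obtain ⟨c, g, h, hg, hh⟩ := hT a1 a2 h1
  have e1 := congrArg (algebraMap B L) hg
  have e2 := congrArg (algebraMap B L) hh
  rw [ha1, map_sub, map_add, map_mul, map_pow, map_pow, ← T.h1] at e1
  rw [ha2, map_sub, map_add, map_mul, map_pow, map_pow, ← T.h2] at e2
  have hx : T.d1 (algebraMap B L T.x) = 1 := by rw [T.h1, T.x1, map_one]
  have ht : T.d2 (algebraMap B L T.t) = 1 := by rw [T.h2, T.t2, map_one]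
  have hx2 : T.d2 (algebraMap B L T.x) = 0 := by rw [T.h2, T.x2, map_zero]
  have ht2 : T.d1 (algebraMap B L T.t) = 0 := by rw [T.h1, T.t1, map_zero]
  refine ⟨∑ j, (z j * y j) * (T.d1 (z j) / z j) - algebraMap B L g,
    ∑ j, (z j * y j) * (T.d2 (z j) / z j) - algebraMap B L h,
    flat_of T.d1 T.d1p (fun j => z j * y j) z _ _ _ hx e1,
    flat_of T.d2 T.d2p (fun j => z j * y j) z _ _ _ ht e2, ?_, ?_, ?_⟩
  · have f1 : ∑ j, (z j * y j) * (T.d1 (z j) / z j) - algebraMap B L g =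
        ∑ j, (z j * y j) ^ p * (T.d1 (z j) / z j) - T.d1 (algebraMap B L c) -
          algebraMap B L g ^ p * algebraMap B L T.x ^ (p - 1) := by
      linear_combination -e1
    have f2 : ∑ j, (z j * y j) * (T.d2 (z j) / z j) - algebraMap B L h =
        ∑ j, (z j * y j) ^ p * (T.d2 (z j) / z j) - T.d2 (algebraMap B L c) -
          algebraMap B L h ^ p * algebraMap B L T.t ^ (p - 1) := by
      linear_combination -e2
    rw [f1, f2, map_sub, map_sub, map_sub, map_sub, T.const1, T.const2, Derivation.leibniz_pow,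
      Derivation.leibniz_pow, ht2, hx2, T.lcomm, map_sum, map_sum]
    have f3 : ∑ j, T.d1 ((z j * y j) ^ p * (T.d2 (z j) / z j)) =
        ∑ j, T.d2 ((z j * y j) ^ p * (T.d1 (z j) / z j)) := by
      refine Finset.sum_congr rfl fun j _ => ?_
      rw [T.const1, T.const2, Derivation.leibniz_div, Derivation.leibniz_div, T.lcomm, smul_eq_mul,
        smul_eq_mul, smul_eq_mul, smul_eq_mul]
      ring
    rw [f3]
    simp only [smul_zero, mul_zero]
  · intro v hv
    have f1 := mem_K hI T.d1 hr1 z y hz hy hzy v hv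
    have f2 := I.add_mem f1 (mul_mem_of_range (r := algebraMap B L g) ⟨g, rfl⟩ hv)
    have f3 : T.d1 v - v * (∑ j, (z j * y j) * (T.d1 (z j) / z j) - algebraMap B L g) =
      T.d1 v - v * (∑ j, (z j * y j) * (T.d1 (z j) / z j)) + algebraMap B L g * v := by ring
    rw [f3]
    exact f2
  · intro v hv
    have f1 := mem_K hI T.d2 hr2 z y hz hy hzy v hv
    have f2 := I.add_mem f1 (mul_mem_of_range (r := algebraMap B L h) ⟨h, rfl⟩ hv)
    have f3 : T.d2 v - v * (∑ j, (z j * y j) * (T.d2 (z j) / z j) - algebraMap B L h) =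
      T.d2 v - v * (∑ j, (z j * y j) * (T.d2 (z j) / z j)) + algebraMap B L h * v := by ring
    rw [f3]
    exact f2

/-- horizontal elements generate -/
theorem gen (T : Dat p B L) (I : Submodule B L) (a1 a2 : L) (f1 : Fl p T.d1 a1) (f2 : Fl p T.d2 a2)
    (hc : T.d1 a2 = T.d2 a1) (h1 : ∀ v ∈ I, TT T.d1 a1 v ∈ I) (h2 : ∀ v ∈ I, TT T.d2 a2 v ∈ I)
    (v : L) (hv : v ∈ I) : v ∈ AddSubgroup.closure {w : L | ∃ s ∈ (algebraMap B L).range,
      ∃ h ∈ I, TT T.d1 a1 h = 0 ∧ TT T.d2 a2 h = 0 ∧ w = s * h} :=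
  hor p T.d1 T.d2 (x := algebraMap B L T.x) (t := algebraMap B L T.t) (a1 := a1) (a2 := a2)
    (by rw [T.h1, T.x1, map_one]) (by rw [T.h1, T.t1, map_zero]) (by rw [T.h2, T.t2, map_one])
    (algebraMap B L).range ⟨_, rfl⟩ ⟨_, rfl⟩ I.toAddSubgroup
    (fun s hs v hv => mul_mem_of_range hs hv) h1 h2 (fun v _ => conn_pow T.d1 T.d1p a1 f1 v)
    (fun v _ => conn_pow T.d2 T.d2p a2 f2 v) (fun v _ => TT_comm T.d1 T.d2 T.lcomm a1 a2 hc v) v hv

/-- the root of an invertible module -/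
def rt (p : ℕ) [Fact p.Prime] [CharP L p] (c : L) (I : Submodule B L) : Submodule B L where
  carrier := {y | c * y ^ p ∈ I}
  zero_mem' := by
    show c * 0 ^ p ∈ I
    rw [zero_pow (Fact.out : p.Prime).ne_zero, mul_zero]
    exact I.zero_mem
  add_mem' := by
    intro a b ha hb
    show c * (a + b) ^ p ∈ I
    have h1 : (a + b) ^ p = a ^ p + b ^ p := map_add (frobenius L p) a b
    rw [h1, mul_add]
    exact I.add_mem ha hb
  smul_mem' := by
    intro b y hy
    show c * (b • y) ^ p ∈ I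
    rw [smul_pow, mul_smul_comm]
    exact I.smul_mem _ hy

theorem core (T : Dat p B L) (hT : FormProp T) (I I' : Submodule B L) (hI : I * I' = 1) :
    ∃ (h0 : L) (J J' : Submodule B L), h0 ≠ 0 ∧ J * J' = 1 ∧
      I = Submodule.span B {h0} * J ^ p := by
  obtain ⟨ξ1, ξ2, f1, f2, hc, hi1, hi2⟩ := exists_conn T hT hI
  have hI' : I' * I = 1 := by rw [mul_comm]; exact hI
  have hp0 := hp.out.ne_zero
  have hr1 : ∀ r ∈ (algebraMap B L).range, T.d1 r ∈ (algebraMap B L).range := by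
    rintro r ⟨b, rfl⟩
    rw [T.h1]
    exact ⟨_, rfl⟩
  have hr2 : ∀ r ∈ (algebraMap B L).range, T.d2 r ∈ (algebraMap B L).range := by
    rintro r ⟨b, rfl⟩
    rw [T.h2]
    exact ⟨_, rfl⟩
  -- the connection on `I`
  have g1 := gen T I (-ξ1) (-ξ2) (Fl_neg _ _ f1) (Fl_neg _ _ f2) (by rw [map_neg, map_neg, hc])
    (fun v hv => by
      rw [TT_apply]
      have := hi1 v hv
      rwa [sub_eq_add_neg, mul_comm, ← neg_mul] at this)
    (fun v hv => by
      rw [TT_apply]
      have := hi2 v hv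
      rwa [sub_eq_add_neg, mul_comm, ← neg_mul] at this)
  -- the dual connection on `I'`
  have g2 := gen T I' ξ1 ξ2 f1 f2 hc
    (fun y hy => by
      rw [TT_apply]
      refine mem_right hI fun v hv => ?_
      have e1 : (T.d1 y + ξ1 * y) * v = T.d1 (v * y) - (T.d1 v - v * ξ1) * y := by
        rw [Derivation.leibniz, smul_eq_mul, smul_eq_mul]
        ring
      rw [e1]
      exact sub_mem (hr1 _ (prod_mem_range hI hv hy)) (prod_mem_range hI (hi1 v hv) hy))
    (fun y hy => by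
      rw [TT_apply]
      refine mem_right hI fun v hv => ?_
      have e1 : (T.d2 y + ξ2 * y) * v = T.d2 (v * y) - (T.d2 v - v * ξ2) * y := by
        rw [Derivation.leibniz, smul_eq_mul, smul_eq_mul]
        ring
      rw [e1]
      exact sub_mem (hr2 _ (prod_mem_range hI hv hy)) (prod_mem_range hI (hi2 v hv) hy))
  -- a horizontal element
  obtain ⟨h0, hh0, h00, hz1, hz2⟩ : ∃ h0 ∈ I, h0 ≠ 0 ∧ TT T.d1 (-ξ1) h0 = 0 ∧
      TT T.d2 (-ξ2) h0 = 0 := by
    by_contra hcon
    push Not at hcon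
    have e1 : ∀ v ∈ I, v = 0 := by
      intro v hv
      have e2 : v ∈ (⊥ : AddSubgroup L) := by
        refine (AddSubgroup.closure_le _).2 ?_ (g1 v hv)
        rintro w ⟨s, hs, h, hh, k1, k2, rfl⟩
        have e3 : h = 0 := by
          by_contra hne
          exact hcon h hh hne k1 k2
        rw [e3, mul_zero]
        exact zero_mem _
      exact (AddSubgroup.mem_bot).1 e2
    obtain ⟨n, z, y, hz, hy, hzy⟩ := exists_pou hI
    have e4 : ∑ j, z j * y j = 0 := Finset.sum_eq_zero fun j _ => by rw [e1 _ (hz j), zero_mul]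
    rw [e4] at hzy
    exact zero_ne_one hzy
  rw [TT_apply] at hz1 hz2
  -- horizontal elements of `I`
  have k1 : ∀ h ∈ I, TT T.d1 (-ξ1) h = 0 → TT T.d2 (-ξ2) h = 0 → ∃ y ∈ rt p h0 I, h = h0 * y ^ p := by
    intro h hh e1 e2
    rw [TT_apply] at e1 e2
    obtain ⟨y, hy⟩ := T.lker (h / h0) (by
      rw [Derivation.leibniz_div, smul_eq_mul, smul_eq_mul, smul_eq_mul]
      have : h0 * T.d1 h - h * T.d1 h0 = 0 := by linear_combination h0 * e1 - h * hz1
      rw [this, mul_zero]) (by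
      rw [Derivation.leibniz_div, smul_eq_mul, smul_eq_mul, smul_eq_mul]
      have : h0 * T.d2 h - h * T.d2 h0 = 0 := by linear_combination h0 * e2 - h * hz2
      rw [this, mul_zero])
    have e3 : h = h0 * y ^ p := by
      rw [← hy]
      field_simp
    refine ⟨y, ?_, e3⟩
    show h0 * y ^ p ∈ I
    rw [← e3]
    exact hh
  have k2 : ∀ h ∈ I', TT T.d1 ξ1 h = 0 → TT T.d2 ξ2 h = 0 →
      ∃ y ∈ rt p h0⁻¹ I', h = h0⁻¹ * y ^ p := by
    intro h hh e1 e2
    rw [TT_apply] at e1 e2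
    obtain ⟨y, hy⟩ := T.lker (h0 * h) (by
      rw [Derivation.leibniz, smul_eq_mul, smul_eq_mul]
      linear_combination h0 * e1 + h * hz1) (by
      rw [Derivation.leibniz, smul_eq_mul, smul_eq_mul]
      linear_combination h0 * e2 + h * hz2)
    have e3 : h = h0⁻¹ * y ^ p := by
      rw [← hy]
      field_simp
    refine ⟨y, ?_, e3⟩
    show h0⁻¹ * y ^ p ∈ I'
    rw [← e3]
    exact hh
  -- `J J' ≤ 1`
  have hle : ∀ y ∈ rt p h0 I, ∀ y' ∈ rt p h0⁻¹ I', y * y' ∈ (algebraMap B L).range := by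
    intro y hy y' hy'
    have e1 : (y * y') ^ p ∈ (algebraMap B L).range := by
      have e2 := prod_mem_range hI (show h0 * y ^ p ∈ I from hy) (show h0⁻¹ * y' ^ p ∈ I' from hy')
      have e3 : h0 * y ^ p * (h0⁻¹ * y' ^ p) = (y * y') ^ p := by
        rw [mul_pow]
        field_simp
      rwa [e3] at e2
    obtain ⟨b, hb⟩ := e1
    obtain ⟨c, hc'⟩ := T.bker b (by rw [hb]; exact der_pow_zero _ _ _)
      (by rw [hb]; exact der_pow_zero _ _ _)
    refine ⟨c, ?_⟩
    rw [hc', map_pow] at hb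
    exact frobenius_inj L p hb
  have hJ1 : rt p h0 I * rt p h0⁻¹ I' ≤ 1 := by
    rw [Submodule.mul_le]
    intro y hy y' hy'
    exact Submodule.mem_one.2 (hle y hy y' hy')
  have hJ2 : 1 ≤ rt p h0 I * rt p h0⁻¹ I' := by
    rw [← hI, Submodule.mul_le]
    intro v hv v' hv'
    have e1 : v * v' ∈ (rt p h0 I * rt p h0⁻¹ I').toAddSubgroup := by
      refine AddSubgroup.closure_induction
        (p := fun v _ => v * v' ∈ (rt p h0 I * rt p h0⁻¹ I').toAddSubgroup)
        (fun w hw => ?_) (by rw [zero_mul]; exact zero_mem _) (fun a b _ _ ha hb => by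
          rw [add_mul]; exact add_mem ha hb) (fun a _ ha => by rw [neg_mul]; exact neg_mem ha)
          (g1 v hv)
      obtain ⟨s, hs, h, hh, q1, q2, rfl⟩ := hw
      refine AddSubgroup.closure_induction
        (p := fun v' _ => s * h * v' ∈ (rt p h0 I * rt p h0⁻¹ I').toAddSubgroup)
        (fun w hw => ?_) (by rw [mul_zero]; exact zero_mem _) (fun a b _ _ ha hb => by
          rw [mul_add]; exact add_mem ha hb) (fun a _ ha => by rw [mul_neg]; exact neg_mem ha)
          (g2 v' hv')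
      obtain ⟨s', hs', h', hh', q1', q2', rfl⟩ := hw
      obtain ⟨y, hy, e2⟩ := k1 h hh q1 q2
      obtain ⟨y', hy', e3⟩ := k2 h' hh' q1' q2'
      have e4 : s * h * (s' * h') = (s * s' * (y * y') ^ (p - 1)) * (y * y') := by
        obtain ⟨q, hq⟩ : ∃ q, p = q + 1 := ⟨p - 1, by have := hp.out.pos; omega⟩
        have e5 : (y * y') ^ (p - 1) * (y * y') = y ^ p * y' ^ p := by
          rw [← mul_pow, hq, Nat.add_sub_cancel, pow_succ]
        rw [e2, e3, mul_assoc (s * s'), e5]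
        field_simp
      rw [e4]
      exact mul_mem_of_range (mul_mem (mul_mem hs hs') (pow_mem (hle y hy y' hy') _))
        (Submodule.mul_mem_mul hy hy')
    exact e1
  have hJ : rt p h0 I * rt p h0⁻¹ I' = 1 := le_antisymm hJ1 hJ2
  refine ⟨h0, rt p h0 I, rt p h0⁻¹ I', h00, hJ, le_antisymm ?_ ?_⟩
  · intro v hv
    have e1 : v ∈ (Submodule.span B {h0} * rt p h0 I ^ p).toAddSubgroup := by
      refine (AddSubgroup.closure_le _).2 ?_ (g1 v hv)
      rintro w ⟨s, hs, h, hh, q1, q2, rfl⟩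
      obtain ⟨y, hy, e2⟩ := k1 h hh q1 q2
      rw [e2]
      exact mul_mem_of_range hs (Submodule.mul_mem_mul (Submodule.mem_span_singleton_self h0)
        (Submodule.pow_mem_pow _ hy p))
    exact e1
  · have hI2 : I' ≤ Submodule.span B {h0⁻¹} * rt p h0⁻¹ I' ^ p := by
      intro v hv
      have e1 : v ∈ (Submodule.span B {h0⁻¹} * rt p h0⁻¹ I' ^ p).toAddSubgroup := by
        refine (AddSubgroup.closure_le _).2 ?_ (g2 v hv)
        rintro w ⟨s, hs, h, hh, q1, q2, rfl⟩
        obtain ⟨y, hy, e2⟩ := k2 h hh q1 q2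
        rw [e2]
        exact mul_mem_of_range hs (Submodule.mul_mem_mul (Submodule.mem_span_singleton_self h0⁻¹)
          (Submodule.pow_mem_pow _ hy p))
      exact e1
    calc Submodule.span B {h0} * rt p h0 I ^ p
        = Submodule.span B {h0} * rt p h0 I ^ p * (I' * I) := by rw [hI', mul_one]
      _ ≤ Submodule.span B {h0} * rt p h0 I ^ p *
          ((Submodule.span B {h0⁻¹} * rt p h0⁻¹ I' ^ p) * I) := by
          gcongr
      _ = (Submodule.span B {h0} * Submodule.span B {h0⁻¹}) *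
          (rt p h0 I * rt p h0⁻¹ I') ^ p * I := by
          rw [mul_pow]
          ring
      _ = I := by
          rw [hJ, one_pow, mul_one, Submodule.span_mul_span, Set.singleton_mul_singleton,
            mul_inv_cancel₀ h00, ← Submodule.one_eq_span, one_mul]

theorem t_PIC' : S_PIC := by
  intro p _ B _ _ _ δ₁ δ₂ x t hx1 ht1 hx2 ht2 hcomm hn1 hn2 hker hform P
  have hchar : CharP (FractionRing B) p := by
    exact charP_of_injective_algebraMap (IsFractionRing.injective B (FractionRing B)) p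
  obtain ⟨d1, hd1⟩ := exists_lift (L := FractionRing B) δ₁
  obtain ⟨d2, hd2⟩ := exists_lift (L := FractionRing B) δ₂
  obtain ⟨T, hT⟩ : ∃ T : Dat p B (FractionRing B), FormProp T :=
    ⟨⟨δ₁, δ₂, d1, d2, x, t, hd1, hd2, hx1, ht1, hx2, ht2, hcomm, hn1, hn2, hker⟩, hform⟩
  have h1 : P ∈ CommRing.relPic B (FractionRing B) := by
    rw [CommRing.relPic_eq_top]
    exact Subgroup.mem_top _
  rw [← Submodule.range_unitsToPic] at h1
  obtain ⟨I, rfl⟩ := h1
  obtain ⟨h0, J, J', h00, hJ, hIJ⟩ := core T hT I.1 I⁻¹.1 I.mul_inv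
  refine ⟨Submodule.unitsToPic B (FractionRing B) ⟨J, J', hJ, by rw [mul_comm]; exact hJ⟩, ?_⟩
  obtain ⟨uJ, huJ⟩ : ∃ uJ : (Submodule B (FractionRing B))ˣ,
    uJ = ⟨J, J', hJ, by rw [mul_comm]; exact hJ⟩ := ⟨_, rfl⟩
  rw [← huJ, ← map_pow]
  obtain ⟨u0, hu0⟩ : ∃ u0 : (Submodule B (FractionRing B))ˣ, u0 =
    Units.map (Submodule.spanSingleton B).toMonoidHom (Units.mk0 h0 h00) := ⟨_, rfl⟩
  have h2 : I = u0 * uJ ^ p := by
    apply Units.ext
    rw [Units.val_mul, Units.val_pow_eq_pow_val, hu0, huJ]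
    exact hIJ
  have h3 : u0 ∈ (Submodule.unitsToPic B (FractionRing B)).ker := by
    rw [Submodule.ker_unitsToPic, hu0]
    exact ⟨_, rfl⟩
  rw [MonoidHom.mem_ker] at h3
  rw [h2, map_mul, h3, one_mul]

theorem t_PIC : S_JAC → S_PIC := fun _ => t_PIC'

end Pool.Agent.K3h4.AS
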