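import Pool.Agent.K3h4.AS.Jac

/-!
Project AS of helper46, brick PIC, part A: derivations of fraction fields, horizontal elements.
-/

set_option autoImplicit false

namespace Pool.Agent.K3h4.AS

section lift

variable {B L : Type} [CommRing B] [IsDomain B] [Field L] [Algebra B L] [IsFractionRing B L]

/-- the homomorphism to the dual numbers given by a derivation -/
noncomputable def toDual (δ : Derivation ℤ B B) : B →+* DualNumber L where
  toFun b := TrivSqZeroExt.inl (algebraMap B L b) + TrivSqZeroExt.inr (algebraMap B L (δ b))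
  map_one' := by
    rw [map_one, Derivation.map_one_eq_zero, map_zero, TrivSqZeroExt.inr_zero, add_zero,
      TrivSqZeroExt.inl_one]
  map_zero' := by
    rw [map_zero, map_zero, map_zero, TrivSqZeroExt.inr_zero, TrivSqZeroExt.inl_zero, add_zero]
  map_add' a b := by
    rw [map_add, map_add, map_add, TrivSqZeroExt.inl_add, TrivSqZeroExt.inr_add]
    abel
  map_mul' a b := by
    apply TrivSqZeroExt.ext
    · rw [TrivSqZeroExt.fst_mul, TrivSqZeroExt.fst_add, TrivSqZeroExt.fst_add,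
        TrivSqZeroExt.fst_add, TrivSqZeroExt.fst_inl, TrivSqZeroExt.fst_inl,
        TrivSqZeroExt.fst_inl, TrivSqZeroExt.fst_inr, TrivSqZeroExt.fst_inr,
        TrivSqZeroExt.fst_inr, map_mul, add_zero, add_zero, add_zero]
    · rw [DualNumber.snd_mul, TrivSqZeroExt.snd_add, TrivSqZeroExt.snd_add,
        TrivSqZeroExt.snd_add, TrivSqZeroExt.snd_inl, TrivSqZeroExt.snd_inl,
        TrivSqZeroExt.snd_inl, TrivSqZeroExt.snd_inr, TrivSqZeroExt.snd_inr,
        TrivSqZeroExt.snd_inr, TrivSqZeroExt.fst_add, TrivSqZeroExt.fst_add,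
        TrivSqZeroExt.fst_inl, TrivSqZeroExt.fst_inl, TrivSqZeroExt.fst_inr,
        TrivSqZeroExt.fst_inr, Derivation.leibniz, smul_eq_mul, smul_eq_mul, map_add, map_mul,
        map_mul]
      ring

omit [IsDomain B] in
theorem exists_lift (δ : Derivation ℤ B B) :
    ∃ d : Derivation ℤ L L, ∀ b, d (algebraMap B L b) = algebraMap B L (δ b) := by
  have hu : ∀ y : nonZeroDivisors B, IsUnit (toDual (L := L) δ y) := by
    intro y
    rw [TrivSqZeroExt.isUnit_iff_isUnit_fst]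
    show IsUnit (algebraMap B L y + 0)
    rw [add_zero]
    exact IsLocalization.map_units L y
  obtain ⟨ψ, hψ⟩ : ∃ ψ : L →+* DualNumber L, ∀ b, ψ (algebraMap B L b) = toDual δ b :=
    ⟨IsLocalization.lift hu, fun b => IsLocalization.lift_eq hu b⟩
  have hfst : ∀ z, (ψ z).fst = z := by
    have h1 : (TrivSqZeroExt.fstHom L L L).toRingHom.comp ψ = RingHom.id L := by
      apply IsLocalization.ringHom_ext (nonZeroDivisors B)
      ext b
      show (ψ (algebraMap B L b)).fst = algebraMap B L b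
      rw [hψ]
      show algebraMap B L b + 0 = _
      rw [add_zero]
    intro z
    exact RingHom.congr_fun h1 z
  refine ⟨Derivation.mk' (AddMonoidHom.toIntLinearMap
    ⟨⟨fun z => (ψ z).snd, by rw [map_zero]; rfl⟩, fun a b => by
      show (ψ (a + b)).snd = _
      rw [map_add]; rfl⟩) ?_, ?_⟩
  · intro a b
    show (ψ (a * b)).snd = a • (ψ b).snd + b • (ψ a).snd
    rw [map_mul, DualNumber.snd_mul, hfst, hfst, smul_eq_mul, smul_eq_mul, mul_comm (ψ a).snd]
  · intro b
    show (ψ (algebraMap B L b)).snd = _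
    rw [hψ]
    show 0 + algebraMap B L (δ b) = _
    rw [zero_add]

end lift

section iter

variable {R : Type} [CommRing R] (δ : Derivation ℤ R R)

theorem der_const_mul (c : R) (hc : δ c = 0) (z : R) (n : ℕ) :
    (⇑δ)^[n] (c * z) = c * (⇑δ)^[n] z := by
  induction n with
  | zero => rfl
  | succ n ih =>
    rw [Function.iterate_succ_apply', ih, Function.iterate_succ_apply', Derivation.leibniz, hc,
      smul_zero, add_zero, smul_eq_mul]

theorem der_pow_zero (p : ℕ) [CharP R p] (c : R) : δ (c ^ p) = 0 := by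
  rw [Derivation.leibniz_pow, ← Nat.cast_smul_eq_nsmul R, CharP.cast_eq_zero, zero_smul]

theorem der_iter_x {x : R} (hx : δ x = 1) (n k : ℕ) :
    (⇑δ)^[k] (x ^ n) = (n.descFactorial k : R) * x ^ (n - k) := by
  induction k with
  | zero => rw [Function.iterate_zero, id, Nat.descFactorial_zero, Nat.cast_one, one_mul,
      Nat.sub_zero]
  | succ k ih =>
    rw [Function.iterate_succ_apply', ih, Derivation.leibniz, Derivation.map_natCast, smul_zero,
      add_zero, Derivation.leibniz_pow, hx, Nat.descFactorial_succ, smul_eq_mul, smul_eq_mul,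
      mul_one, nsmul_eq_mul, show n - k - 1 = n - (k + 1) from by omega]
    push_cast
    ring

theorem der_iter_x_self {x : R} (hx : δ x = 1) (n : ℕ) : (⇑δ)^[n] (x ^ n) = (n.factorial : R) := by
  rw [der_iter_x δ hx, Nat.descFactorial_self, Nat.sub_self, pow_zero, mul_one]

theorem TT_mul (a b w : R) : TT δ a (b * w) = δ b * w + b * TT δ a w := by
  rw [TT_apply, TT_apply, Derivation.leibniz, smul_eq_mul, smul_eq_mul]
  ring

theorem TT_iter_mul (a b w : R) (hw : TT δ a w = 0) (n : ℕ) :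
    (TT δ a ^ n) (b * w) = (⇑δ)^[n] b * w := by
  induction n with
  | zero => rfl
  | succ n ih =>
    rw [pow_succ', Module.End.mul_apply, ih, TT_mul, hw, mul_zero, add_zero,
      Function.iterate_succ_apply']

end iter

section hor

variable {L : Type} [Field L] (p : ℕ) [hp : Fact p.Prime] [CharP L p]

include hp in
theorem nat_pow_pred (m : ℕ) (hm : (m : L) ≠ 0) : (m : L) * ((m ^ (p - 2) : ℕ) : L) = 1 := by
  have h1 : (m : L) ^ p = (m : L) := by rw [← frobenius_def, map_natCast]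
  have h2 : (m : L) ^ (p - 1) = 1 := by
    apply mul_left_cancel₀ hm
    rw [← pow_succ', Nat.sub_add_cancel hp.out.one_le, h1, mul_one]
  push_cast
  have := hp.out.two_le
  rw [← pow_succ', show p - 2 + 1 = p - 1 from by omega, h2]

theorem fact_ne (n : ℕ) (hn : n < p) : ((n.factorial : ℕ) : L) ≠ 0 := by
  rw [Ne, CharP.cast_eq_zero_iff L p, hp.out.dvd_factorial]
  omega

theorem hor1 (d : Derivation ℤ L L) {x a : L} (hx : d x = 1) (S : Subring L) (hxS : x ∈ S)
    (V : AddSubgroup L) (hxV : ∀ v ∈ V, ∀ n m : ℕ, (x ^ n * (m : L)) * v ∈ V)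
    (h1 : ∀ v ∈ V, TT d a v ∈ V) (n : ℕ) : n ≤ p → ∀ v ∈ V, (TT d a ^ n) v = 0 →
    v ∈ AddSubgroup.closure {w : L | ∃ s ∈ S, ∃ h ∈ V, TT d a h = 0 ∧ w = s * h} := by
  induction n with
  | zero =>
    intro _ v _ hv
    have : v = 0 := hv
    rw [this]
    exact zero_mem _
  | succ n ih =>
    intro hn v hv hnv
    obtain ⟨c, hc⟩ : ∃ c : ℕ, ((n.factorial : ℕ) : L) * (c : L) = 1 :=
      ⟨_, nat_pow_pred p _ (fact_ne p n (by omega))⟩
    obtain ⟨w, hw⟩ : ∃ w, w = (TT d a ^ n) v := ⟨_, rfl⟩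
    have hwV : w ∈ V := by
      rw [hw]
      clear hw hnv hc hn ih
      induction n with
      | zero => exact hv
      | succ n ih => rw [pow_succ', Module.End.mul_apply]; exact h1 _ ih
    have hw0 : TT d a w = 0 := by
      rw [hw, ← Module.End.mul_apply, ← pow_succ']
      exact hnv
    have h2 : (TT d a ^ n) ((x ^ n * (c : L)) * w) = w := by
      rw [TT_iter_mul d a _ w hw0, mul_comm (x ^ n), der_const_mul d _ (Derivation.map_natCast d c),
        der_iter_x_self d hx, mul_comm (c : L), hc, one_mul]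
    have h3 := ih (by omega) (v - (x ^ n * (c : L)) * w) (V.sub_mem hv (hxV w hwV n c)) (by
      rw [map_sub, h2, ← hw, sub_self])
    have h4 : (x ^ n * (c : L)) * w ∈
        AddSubgroup.closure {w : L | ∃ s ∈ S, ∃ h ∈ V, TT d a h = 0 ∧ w = s * h} :=
      AddSubgroup.subset_closure ⟨x ^ n * (c : L), S.mul_mem (S.pow_mem hxS n) (natCast_mem S c), w,
        hwV, hw0, rfl⟩
    have h5 := add_mem h3 h4
    rwa [sub_add_cancel] at h5

theorem hor (d1 d2 : Derivation ℤ L L) {x t a1 a2 : L} (hx : d1 x = 1) (ht1 : d1 t = 0)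
    (ht : d2 t = 1) (S : Subring L) (hxS : x ∈ S) (htS : t ∈ S)
    (V : AddSubgroup L) (hSV : ∀ s ∈ S, ∀ v ∈ V, s * v ∈ V)
    (h1 : ∀ v ∈ V, TT d1 a1 v ∈ V) (h2 : ∀ v ∈ V, TT d2 a2 v ∈ V)
    (n1 : ∀ v ∈ V, (TT d1 a1 ^ p) v = 0) (n2 : ∀ v ∈ V, (TT d2 a2 ^ p) v = 0)
    (hc : ∀ v ∈ V, TT d1 a1 (TT d2 a2 v) = TT d2 a2 (TT d1 a1 v)) (v : L) (hv : v ∈ V) :
    v ∈ AddSubgroup.closure
      {w : L | ∃ s ∈ S, ∃ h ∈ V, TT d1 a1 h = 0 ∧ TT d2 a2 h = 0 ∧ w = s * h} := by
  have e1 := hor1 p d1 hx S hxS V (fun v hv n m => hSV _ (S.mul_mem (S.pow_mem hxS n)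
    (natCast_mem S m)) v hv) h1 p le_rfl v hv (n1 v hv)
  obtain ⟨W, hW⟩ : ∃ W : AddSubgroup L, ∀ w, w ∈ W ↔ w ∈ V ∧ TT d1 a1 w = 0 := by
    refine ⟨V ⊓ (TT d1 a1).toAddMonoidHom.ker, fun w => ?_⟩
    rw [AddSubgroup.mem_inf]
    rfl
  have hWx : ∀ v ∈ W, ∀ n m : ℕ, (t ^ n * (m : L)) * v ∈ W := by
    intro v hv n m
    rw [hW] at hv ⊢
    refine ⟨hSV _ (S.mul_mem (S.pow_mem htS n) (natCast_mem S m)) v hv.1, ?_⟩
    rw [TT_mul, hv.2, mul_zero, add_zero, Derivation.leibniz, Derivation.map_natCast,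
      Derivation.leibniz_pow, ht1, smul_zero, smul_zero, smul_zero, smul_zero, add_zero, zero_mul]
  have hW2 : ∀ v ∈ W, TT d2 a2 v ∈ W := by
    intro v hv
    rw [hW] at hv ⊢
    refine ⟨h2 v hv.1, ?_⟩
    rw [hc v hv.1, hv.2, map_zero]
  refine AddSubgroup.closure_induction (fun w hw => ?_) (zero_mem _) (fun a b _ _ ha hb =>
    add_mem ha hb) (fun a _ ha => neg_mem ha) e1
  obtain ⟨s, hs, h, hh, hh0, rfl⟩ := hw
  have e2 := hor1 p d2 ht S htS W hWx hW2 p le_rfl h ((hW h).2 ⟨hh, hh0⟩) (n2 h hh)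
  refine AddSubgroup.closure_induction (p := fun h _ => s * h ∈ AddSubgroup.closure
      {w : L | ∃ s ∈ S, ∃ h ∈ V, TT d1 a1 h = 0 ∧ TT d2 a2 h = 0 ∧ w = s * h})
    (fun w hw => ?_) (by rw [mul_zero]; exact zero_mem _) (fun a b _ _ ha hb => by
      rw [mul_add]; exact add_mem ha hb) (fun a _ ha => by rw [mul_neg]; exact neg_mem ha) e2
  obtain ⟨s', hs', h', hh', hh0', rfl⟩ := hw
  rw [hW] at hh'
  exact AddSubgroup.subset_closure ⟨s * s', S.mul_mem hs hs', h', hh'.1, hh'.2, hh0',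
    (mul_assoc _ _ _).symm⟩

end hor

end Pool.Agent.K3h4.AS
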