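import Pool.Agent.K3h4.AS.PicA

/-!
Project AS of helper46, brick PIC, part B: the fraction field.
-/

set_option autoImplicit false
set_option linter.unusedSectionVars false

open scoped KaehlerDifferential

namespace Pool.Agent.K3h4.AS

/-- the data of the brick, with the derivations of the fraction field -/
structure Dat (p : ℕ) (B L : Type) [CommRing B] [Field L] [Algebra B L] where
  δ1 : Derivation ℤ B B
  δ2 : Derivation ℤ B B
  d1 : Derivation ℤ L L
  d2 : Derivation ℤ L L
  x : B
  t : B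
  h1 : ∀ b, d1 (algebraMap B L b) = algebraMap B L (δ1 b)
  h2 : ∀ b, d2 (algebraMap B L b) = algebraMap B L (δ2 b)
  x1 : δ1 x = 1
  t1 : δ1 t = 0
  x2 : δ2 x = 0
  t2 : δ2 t = 1
  comm : ∀ z, δ1 (δ2 z) = δ2 (δ1 z)
  n1 : ∀ z, (⇑δ1)^[p] z = 0
  n2 : ∀ z, (⇑δ2)^[p] z = 0
  ker : ∀ z, δ1 z = 0 → δ2 z = 0 → ∃ y, z = y ^ p

variable {p : ℕ} [hp : Fact p.Prime] {B L : Type} [CommRing B] [IsDomain B] [Field L] [Algebra B L]
  [IsFractionRing B L] [CharP L p]

omit [IsDomain B] [CharP L p] in
variable (B) in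
/-- every element of the fraction field is a quotient by a `p`-th power -/
theorem frac (z : L) : ∃ w c : B, algebraMap B L c ≠ 0 ∧
    (algebraMap B L c) ^ p * z = algebraMap B L w := by
  obtain ⟨a, b, hb, rfl⟩ := IsFractionRing.div_surjective (A := B) z
  have hb0 : algebraMap B L b ≠ 0 := by
    have := IsLocalization.map_units L (⟨b, hb⟩ : nonZeroDivisors B)
    exact this.ne_zero
  refine ⟨a * b ^ (p - 1), b, hb0, ?_⟩
  rw [map_mul, map_pow]
  obtain ⟨q, hq⟩ : ∃ q, p = q + 1 := ⟨p - 1, by have := hp.out.pos; omega⟩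
  rw [hq, Nat.add_sub_cancel, pow_succ]
  field_simp

namespace Dat

variable (T : Dat p B L)

omit hp [IsDomain B] [IsFractionRing B L] [CharP L p] in
theorem iter1 (b : B) (n : ℕ) : (⇑T.d1)^[n] (algebraMap B L b) = algebraMap B L ((⇑T.δ1)^[n] b) := by
  induction n with
  | zero => rfl
  | succ n ih => rw [Function.iterate_succ_apply', ih, T.h1, Function.iterate_succ_apply']

omit hp [IsDomain B] [IsFractionRing B L] [CharP L p] in
theorem iter2 (b : B) (n : ℕ) : (⇑T.d2)^[n] (algebraMap B L b) = algebraMap B L ((⇑T.δ2)^[n] b) := by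
  induction n with
  | zero => rfl
  | succ n ih => rw [Function.iterate_succ_apply', ih, T.h2, Function.iterate_succ_apply']

omit [IsDomain B] in
theorem d1p (z : L) : (⇑T.d1)^[p] z = 0 := by
  obtain ⟨w, c, hc, h⟩ := frac (p := p) B z
  have e1 := der_const_mul T.d1 _ (der_pow_zero T.d1 p (algebraMap B L c)) z p
  rw [h, T.iter1, T.n1, map_zero] at e1
  exact (mul_eq_zero.1 e1.symm).resolve_left (pow_ne_zero _ hc)

omit [IsDomain B] in
theorem d2p (z : L) : (⇑T.d2)^[p] z = 0 := by
  obtain ⟨w, c, hc, h⟩ := frac (p := p) B z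
  have e1 := der_const_mul T.d2 _ (der_pow_zero T.d2 p (algebraMap B L c)) z p
  rw [h, T.iter2, T.n2, map_zero] at e1
  exact (mul_eq_zero.1 e1.symm).resolve_left (pow_ne_zero _ hc)

omit [IsDomain B] [IsFractionRing B L] hp in
theorem const1 (c z : L) : T.d1 (c ^ p * z) = c ^ p * T.d1 z :=
  der_const_mul T.d1 _ (der_pow_zero T.d1 p c) z 1

omit [IsDomain B] [IsFractionRing B L] hp in
theorem const2 (c z : L) : T.d2 (c ^ p * z) = c ^ p * T.d2 z :=
  der_const_mul T.d2 _ (der_pow_zero T.d2 p c) z 1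

omit [IsDomain B] in
theorem lcomm (z : L) : T.d1 (T.d2 z) = T.d2 (T.d1 z) := by
  obtain ⟨w, c, hc, h⟩ := frac (p := p) B z
  apply mul_left_cancel₀ (pow_ne_zero p hc)
  rw [← T.const1, ← T.const2, ← T.const2, ← T.const1, h, T.h2, T.h1, T.h1, T.h2, T.comm]

omit hp [IsDomain B] [CharP L p] in
theorem bker (b : B) (h1 : T.d1 (algebraMap B L b) = 0) (h2 : T.d2 (algebraMap B L b) = 0) :
    ∃ y : B, b = y ^ p := by
  have hinj := IsFractionRing.injective B L
  rw [T.h1] at h1
  rw [T.h2] at h2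
  exact T.ker b (hinj (by rw [h1, map_zero])) (hinj (by rw [h2, map_zero]))

theorem lker (z : L) (h1 : T.d1 z = 0) (h2 : T.d2 z = 0) : ∃ y : L, z = y ^ p := by
  obtain ⟨w, c, hc, h⟩ := frac (p := p) B z
  obtain ⟨y, hy⟩ := T.bker w (by rw [← h, T.const1, h1, mul_zero])
    (by rw [← h, T.const2, h2, mul_zero])
  refine ⟨algebraMap B L y / algebraMap B L c, ?_⟩
  rw [div_pow, eq_div_iff (pow_ne_zero _ hc), mul_comm, h, hy, map_pow]

/-- the differential of `z` is determined by its two derivatives -/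
def G (z : L) : Prop := KaehlerDifferential.D ℤ L z =
  T.d1 z • KaehlerDifferential.D ℤ L (algebraMap B L T.x) +
    T.d2 z • KaehlerDifferential.D ℤ L (algebraMap B L T.t)

omit [IsDomain B] [IsFractionRing B L] [CharP L p] hp in
theorem G_zero : T.G 0 := by
  unfold G
  rw [map_zero, map_zero, map_zero, zero_smul, zero_smul, add_zero]

omit [IsDomain B] [IsFractionRing B L] [CharP L p] hp in
theorem G_one : T.G 1 := by
  unfold G
  rw [Derivation.map_one_eq_zero, Derivation.map_one_eq_zero, Derivation.map_one_eq_zero, zero_smul,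
    zero_smul, add_zero]

omit [IsDomain B] [IsFractionRing B L] [CharP L p] hp in
theorem G_add {a b : L} (ha : T.G a) (hb : T.G b) : T.G (a + b) := by
  unfold G at *
  rw [map_add, map_add, map_add, ha, hb, add_smul, add_smul]
  abel

omit [IsDomain B] [IsFractionRing B L] [CharP L p] hp in
theorem G_neg {a : L} (ha : T.G a) : T.G (-a) := by
  unfold G at *
  rw [map_neg, map_neg, map_neg, ha, neg_smul, neg_smul]
  abel

omit [IsDomain B] [IsFractionRing B L] [CharP L p] hp in
theorem G_mul {a b : L} (ha : T.G a) (hb : T.G b) : T.G (a * b) := by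
  unfold G at *
  rw [Derivation.leibniz, Derivation.leibniz, Derivation.leibniz, ha, hb, smul_eq_mul, smul_eq_mul,
    smul_eq_mul, smul_eq_mul, smul_add, smul_add, add_smul, add_smul, smul_smul, smul_smul,
    smul_smul, smul_smul]
  abel

omit [IsDomain B] [IsFractionRing B L] hp in
theorem G_pow (c : L) : T.G (c ^ p) := by
  unfold G
  rw [der_pow_zero, der_pow_zero, Derivation.leibniz_pow, ← Nat.cast_smul_eq_nsmul L,
    CharP.cast_eq_zero, zero_smul, zero_smul, zero_smul, add_zero]

theorem G_alg (b : B) : T.G (algebraMap B L b) := by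
  obtain ⟨S, hS⟩ : ∃ S : Subring L, ∀ z, z ∈ S ↔ z ∈ (algebraMap B L).range ∧ T.G z := by
    refine ⟨{ carrier := {z | z ∈ (algebraMap B L).range ∧ T.G z}
              mul_mem' := fun ha hb => ⟨mul_mem ha.1 hb.1, T.G_mul ha.2 hb.2⟩
              one_mem' := ⟨one_mem _, T.G_one⟩
              add_mem' := fun ha hb => ⟨add_mem ha.1 hb.1, T.G_add ha.2 hb.2⟩
              zero_mem' := ⟨zero_mem _, T.G_zero⟩
              neg_mem' := fun ha => ⟨neg_mem ha.1, T.G_neg ha.2⟩ }, fun z => Iff.rfl⟩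
  have hx : algebraMap B L T.x ∈ S := by
    rw [hS]
    refine ⟨⟨_, rfl⟩, ?_⟩
    unfold G
    rw [T.h1, T.h2, T.x1, T.x2, map_one, map_zero, one_smul, zero_smul, add_zero]
  have ht : algebraMap B L T.t ∈ S := by
    rw [hS]
    refine ⟨⟨_, rfl⟩, ?_⟩
    unfold G
    rw [T.h1, T.h2, T.t1, T.t2, map_one, map_zero, one_smul, zero_smul, zero_add]
  have htt : ∀ (d : Derivation ℤ L L) (n : ℕ) (v : L), (TT d 0 ^ n) v = (⇑d)^[n] v := by
    intro d n v
    induction n with
    | zero => rfl
    | succ n ih => rw [pow_succ', Module.End.mul_apply, ih, TT_apply, zero_mul, add_zero,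
        Function.iterate_succ_apply']
  have key := hor p T.d1 T.d2 (x := algebraMap B L T.x) (t := algebraMap B L T.t) (a1 := 0) (a2 := 0)
    (by rw [T.h1, T.x1, map_one]) (by rw [T.h1, T.t1, map_zero]) (by rw [T.h2, T.t2, map_one]) S hx ht
    (algebraMap B L).range.toAddSubgroup (fun s hs v hv =>
      (algebraMap B L).range.mul_mem ((hS s).1 hs).1 hv)
    (by
      rintro v ⟨b, rfl⟩
      rw [TT_apply, zero_mul, add_zero, T.h1]
      exact ⟨_, rfl⟩)
    (by
      rintro v ⟨b, rfl⟩
      rw [TT_apply, zero_mul, add_zero, T.h2]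
      exact ⟨_, rfl⟩)
    (fun v _ => by rw [htt, T.d1p]) (fun v _ => by rw [htt, T.d2p])
    (fun v _ => by
      rw [TT_apply, TT_apply, TT_apply, TT_apply, zero_mul, zero_mul, zero_mul, add_zero, add_zero,
        add_zero, add_zero, T.lcomm])
    (algebraMap B L b) ⟨b, rfl⟩
  have h2 : algebraMap B L b ∈ S.toAddSubgroup := by
    refine (AddSubgroup.closure_le (S.toAddSubgroup)).2 ?_ key
    rintro w ⟨s, hs, h, ⟨c, rfl⟩, hh1, hh2, rfl⟩
    rw [TT_apply, zero_mul, add_zero] at hh1 hh2
    obtain ⟨y, hy⟩ := T.bker c hh1 hh2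
    refine S.mul_mem hs ((hS _).2 ⟨⟨c, rfl⟩, ?_⟩)
    rw [hy, map_pow]
    exact T.G_pow _
  exact ((hS _).1 h2).2

theorem G_all (z : L) : T.G z := by
  obtain ⟨w, c, hc, h⟩ := frac (p := p) B z
  have h1 := T.G_alg w
  rw [← h] at h1
  unfold G at h1 ⊢
  have h2 := T.G_pow (algebraMap B L c)
  unfold G at h2
  rw [der_pow_zero, der_pow_zero, zero_smul, zero_smul, add_zero] at h2
  rw [Derivation.leibniz, h2, smul_zero, add_zero, T.const1, T.const2, ← smul_smul, ← smul_smul,
    ← smul_add] at h1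
  exact smul_right_injective _ (pow_ne_zero p hc) h1

end Dat

omit [IsDomain B] [IsFractionRing B L] in
/-- the logarithmic derivative -/
theorem log_der (d : Derivation ℤ L L) (hd : ∀ z, (⇑d)^[p] z = 0) (z : L) :
    (d z / z) ^ p = -(⇑d)^[p - 1] (d z / z) := by
  have hp1 := hp.out.one_le
  by_cases hz : z = 0
  · rw [hz, map_zero, zero_div, zero_pow hp.out.ne_zero]
    have h1 : ∀ n : ℕ, (⇑d)^[n] (0 : L) = 0 := by
      intro n
      induction n with
      | zero => rfl
      | succ n ih => rw [Function.iterate_succ_apply', ih, map_zero]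
    rw [h1, neg_zero]
  · have h1 : ∀ (n : ℕ) (s : L), z * (TT d (d z / z) ^ n) s = (⇑d)^[n] (z * s) := by
      intro n
      induction n with
      | zero => intro s; rfl
      | succ n ih =>
        intro s
        rw [pow_succ', Module.End.mul_apply, TT_apply, Function.iterate_succ_apply', ← ih,
          Derivation.leibniz, smul_eq_mul, smul_eq_mul]
        field_simp
    have h2 := h1 p 1
    rw [hd, TT_pow_one] at h2
    have h3 := (mul_eq_zero.1 h2).resolve_left hz
    exact eq_neg_of_add_eq_zero_left h3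

end Pool.Agent.K3h4.AS
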