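import Pool.Agent.K3h4.AS.PicB

/-!
Project AS of helper46, brick PIC, part C: the connection on an invertible module.
-/

set_option autoImplicit false
set_option linter.unusedSectionVars false

open scoped KaehlerDifferential

namespace Pool.Agent.K3h4.AS

open Pool.Agent.K3h46.AS

section iter

variable {R : Type} [CommRing R] (d : Derivation ℤ R R)

theorem iter_add (a b : R) (n : ℕ) : (⇑d)^[n] (a + b) = (⇑d)^[n] a + (⇑d)^[n] b := by
  induction n with
  | zero => rfl
  | succ n ih => rw [Function.iterate_succ_apply', ih, map_add, Function.iterate_succ_apply',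
      Function.iterate_succ_apply']

theorem iter_neg (a : R) (n : ℕ) : (⇑d)^[n] (-a) = -(⇑d)^[n] a := by
  induction n with
  | zero => rfl
  | succ n ih => rw [Function.iterate_succ_apply', ih, map_neg, Function.iterate_succ_apply']

theorem iter_sub (a b : R) (n : ℕ) : (⇑d)^[n] (a - b) = (⇑d)^[n] a - (⇑d)^[n] b := by
  rw [sub_eq_add_neg, iter_add, iter_neg, ← sub_eq_add_neg]

theorem iter_sum {ι : Type} (s : Finset ι) (f : ι → R) (n : ℕ) :
    (⇑d)^[n] (∑ i ∈ s, f i) = ∑ i ∈ s, (⇑d)^[n] (f i) := by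
  induction n with
  | zero => rfl
  | succ n ih =>
    rw [Function.iterate_succ_apply', ih, map_sum]
    exact Finset.sum_congr rfl fun i _ => (Function.iterate_succ_apply' _ _ _).symm

end iter

variable {p : ℕ} [hp : Fact p.Prime] {B L : Type} [CommRing B] [IsDomain B] [Field L] [Algebra B L]
  [IsFractionRing B L] [CharP L p]

section char

theorem wilson : (((p - 1).factorial : ℕ) : L) = -1 := by
  have h1 : (((p - 1).factorial : ℕ) : ZMod p) = -1 := ZMod.wilsons_lemma p
  have h2 : (((p - 1).factorial + 1 : ℕ) : ZMod p) = 0 := by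
    rw [Nat.cast_add, h1, Nat.cast_one, neg_add_cancel]
  have h3 : (((p - 1).factorial + 1 : ℕ) : L) = 0 := by
    rw [CharP.cast_eq_zero_iff L p]
    exact (CharP.cast_eq_zero_iff (ZMod p) p _).1 h2
  rw [Nat.cast_add, Nat.cast_one] at h3
  exact eq_neg_of_add_eq_zero_left h3

theorem neg_pow_p (a : L) : (-a) ^ p = -a ^ p := map_neg (frobenius L p) a

theorem sub_pow_p (a b : L) : (a - b) ^ p = a ^ p - b ^ p := map_sub (frobenius L p) a b

theorem sum_pow_p {ι : Type} (s : Finset ι) (f : ι → L) : (∑ i ∈ s, f i) ^ p = ∑ i ∈ s, f i ^ p :=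
  map_sum (frobenius L p) f s

/-- the `p`-curvature of `d + a` is zero -/
def Fl (p : ℕ) (d : Derivation ℤ L L) (a : L) : Prop := a ^ p + (⇑d)^[p - 1] a = 0

theorem Fl_neg (d : Derivation ℤ L L) (a : L) (h : Fl p d a) : Fl p d (-a) := by
  unfold Fl at *
  rw [neg_pow_p, iter_neg, ← neg_add, h, neg_zero]

theorem conn_pow (d : Derivation ℤ L L) (hd : ∀ z, (⇑d)^[p] z = 0) (a : L) (ha : Fl p d a) (v : L) :
    (TT d a ^ p) v = 0 := by
  unfold Fl at ha
  rw [TT_pow_char, hd, TT_pow_one, ha, zero_mul, add_zero]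

theorem TT_comm (d1 d2 : Derivation ℤ L L) (hc : ∀ z, d1 (d2 z) = d2 (d1 z)) (a1 a2 : L)
    (h : d1 a2 = d2 a1) (v : L) : TT d1 a1 (TT d2 a2 v) = TT d2 a2 (TT d1 a1 v) := by
  rw [TT_apply, TT_apply, TT_apply, TT_apply, map_add, map_add, Derivation.leibniz,
    Derivation.leibniz, smul_eq_mul, smul_eq_mul, smul_eq_mul, smul_eq_mul, h, hc]
  ring

theorem flat_of (d : Derivation ℤ L L) (hd : ∀ z, (⇑d)^[p] z = 0) {n : ℕ} (s z : Fin n → L)
    (x c g : L) (hx : d x = 1)
    (h : ∑ j, s j ^ p * (d (z j) / z j) - ∑ j, s j * (d (z j) / z j) =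
      d c + g ^ p * x ^ (p - 1) - g) :
    Fl p d (∑ j, s j * (d (z j) / z j) - g) := by
  have hp1 := hp.out.one_le
  have h1 : ∑ j, s j * (d (z j) / z j) - g =
      ∑ j, s j ^ p * (d (z j) / z j) - d c - g ^ p * x ^ (p - 1) := by
    linear_combination -h
  unfold Fl
  have h2 : (⇑d)^[p - 1] (∑ j, s j * (d (z j) / z j) - g) =
      -(∑ j, s j * (d (z j) / z j)) ^ p + g ^ p := by
    rw [h1, iter_sub, iter_sub, iter_sum, der_const_mul d _ (der_pow_zero d p g),
      der_iter_x_self d hx, wilson, ← Function.iterate_succ_apply, Nat.succ_eq_add_one,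
      Nat.sub_add_cancel hp1, hd, sub_zero, sum_pow_p, ← Finset.sum_neg_distrib]
    have h3 : ∑ j, (⇑d)^[p - 1] (s j ^ p * (d (z j) / z j)) =
        ∑ j, -(s j * (d (z j) / z j)) ^ p := by
      refine Finset.sum_congr rfl fun j _ => ?_
      rw [der_const_mul d _ (der_pow_zero d p (s j)), mul_pow, log_der d hd]
      ring
    rw [h3]
    ring
  rw [h2, sub_pow_p]
  ring

end char

section pou

/-- a partition of unity -/
theorem exists_pou {I I' : Submodule B L} (h : I * I' = 1) :
    ∃ (n : ℕ) (z y : Fin n → L), (∀ j, z j ∈ I) ∧ (∀ j, y j ∈ I') ∧ ∑ j, z j * y j = 1 := by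
  have key : ∀ r ∈ I * I', ∃ (n : ℕ) (z y : Fin n → L), (∀ j, z j ∈ I) ∧ (∀ j, y j ∈ I') ∧
      ∑ j, z j * y j = r := by
    intro r hr
    refine Submodule.mul_induction_on hr ?_ ?_
    · intro m hm n hn
      exact ⟨1, fun _ => m, fun _ => n, fun _ => hm, fun _ => hn, Fin.sum_univ_one _⟩
    · rintro a b ⟨n, z, y, hz, hy, h1⟩ ⟨n', z', y', hz', hy', h2⟩
      refine ⟨n + n', Fin.append z z', Fin.append y y', ?_, ?_, ?_⟩
      · intro j
        refine Fin.addCases (fun i => ?_) (fun i => ?_) j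
        · rw [Fin.append_left]; exact hz i
        · rw [Fin.append_right]; exact hz' i
      · intro j
        refine Fin.addCases (fun i => ?_) (fun i => ?_) j
        · rw [Fin.append_left]; exact hy i
        · rw [Fin.append_right]; exact hy' i
      · rw [Fin.sum_univ_add]
        simp only [Fin.append_left, Fin.append_right]
        rw [h1, h2]
  refine key 1 ?_
  rw [h]
  exact Submodule.one_le.1 le_rfl

theorem mul_mem_of_range {I : Submodule B L} {r v : L} (hr : r ∈ (algebraMap B L).range)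
    (hv : v ∈ I) : r * v ∈ I := by
  obtain ⟨b, rfl⟩ := hr
  rw [← Algebra.smul_def]
  exact I.smul_mem b hv

theorem prod_mem_range {I I' : Submodule B L} (h : I * I' = 1) {v v' : L} (hv : v ∈ I)
    (hv' : v' ∈ I') : v * v' ∈ (algebraMap B L).range := by
  have h1 := Submodule.mul_mem_mul hv hv'
  rw [h] at h1
  exact Submodule.mem_one.1 h1

theorem mem_left {I I' : Submodule B L} (h : I * I' = 1) {w : L}
    (hw : ∀ v' ∈ I', w * v' ∈ (algebraMap B L).range) : w ∈ I := by
  obtain ⟨n, z, y, hz, hy, hzy⟩ := exists_pou h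
  have h1 : w = ∑ j, (w * y j) * z j := by
    have : ∑ j, (w * y j) * z j = w * ∑ j, z j * y j := by
      rw [Finset.mul_sum]
      exact Finset.sum_congr rfl fun j _ => by ring
    rw [this, hzy, mul_one]
  rw [h1]
  exact I.sum_mem fun j _ => mul_mem_of_range (hw _ (hy j)) (hz j)

theorem mem_right {I I' : Submodule B L} (h : I * I' = 1) {w : L}
    (hw : ∀ v ∈ I, w * v ∈ (algebraMap B L).range) : w ∈ I' := by
  rw [mul_comm] at h
  exact mem_left h hw

variable {I I' : Submodule B L} (h : I * I' = 1) (d : Derivation ℤ L L)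
  (hd : ∀ r ∈ (algebraMap B L).range, d r ∈ (algebraMap B L).range) {n : ℕ} (z y : Fin n → L)
  (hz : ∀ j, z j ∈ I) (hy : ∀ j, y j ∈ I') (hzy : ∑ j, z j * y j = 1)

theorem y_mul_d (z y : L) : y * d z = (z * y) * (d z / z) := by
  by_cases hz : z = 0
  · rw [hz, map_zero, mul_zero, zero_mul, zero_mul]
  · field_simp

include h hd hz hy hzy

theorem mem_K (v : L) (hv : v ∈ I) : d v - v * ∑ j, (z j * y j) * (d (z j) / z j) ∈ I := by
  have h1 : v = ∑ j, (v * y j) * z j := by
    have : ∑ j, (v * y j) * z j = v * ∑ j, z j * y j := by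
      rw [Finset.mul_sum]
      exact Finset.sum_congr rfl fun j _ => by ring
    rw [this, hzy, mul_one]
  have h2 : d v = ∑ j, (d (v * y j) * z j + v * ((z j * y j) * (d (z j) / z j))) := by
    conv_lhs => rw [h1]
    rw [map_sum]
    refine Finset.sum_congr rfl fun j _ => ?_
    rw [Derivation.leibniz, smul_eq_mul, smul_eq_mul, ← y_mul_d]
    ring
  rw [h2, Finset.sum_add_distrib, Finset.mul_sum, add_sub_cancel_right]
  exact I.sum_mem fun j _ => mul_mem_of_range (hd _ (prod_mem_range h hv (hy j))) (hz j)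

theorem mem_N (v : L) (hv : v ∈ I) : d v - v * ∑ j, (z j * y j) ^ p * (d (z j) / z j) ∈ I := by
  obtain ⟨q, hq⟩ : ∃ q, p = q + 1 := ⟨p - 1, by have := hp.out.pos; omega⟩
  have h0 : ∑ j, (z j * y j) ^ p = 1 := by rw [← sum_pow_p, hzy, one_pow]
  have h1 : v = ∑ j, ((v * y j) * (z j * y j) ^ q) * z j := by
    have : ∑ j, ((v * y j) * (z j * y j) ^ q) * z j = v * ∑ j, (z j * y j) ^ p := by
      rw [Finset.mul_sum]
      exact Finset.sum_congr rfl fun j _ => by rw [hq, pow_succ]; ring
    rw [this, h0, mul_one]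
  have h2 : d v = ∑ j, (d ((v * y j) * (z j * y j) ^ q) * z j +
      v * ((z j * y j) ^ p * (d (z j) / z j))) := by
    conv_lhs => rw [h1]
    rw [map_sum]
    refine Finset.sum_congr rfl fun j _ => ?_
    have h3 : v * ((z j * y j) ^ p * (d (z j) / z j)) = v * ((z j * y j) ^ q * (y j * d (z j))) := by
      rw [hq, pow_succ, y_mul_d d (z j) (y j)]
      ring
    rw [Derivation.leibniz, smul_eq_mul, smul_eq_mul, h3]
    ring
  rw [h2, Finset.sum_add_distrib, Finset.mul_sum, add_sub_cancel_right]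
  refine I.sum_mem fun j _ => mul_mem_of_range (hd _ ?_) (hz j)
  exact mul_mem (prod_mem_range h hv (hy j)) (pow_mem (prod_mem_range h (hz j) (hy j)) q)

theorem mem_diff : ∑ j, (z j * y j) ^ p * (d (z j) / z j) - ∑ j, (z j * y j) * (d (z j) / z j) ∈
    (algebraMap B L).range := by
  obtain ⟨a, ha⟩ : ∃ a, a = ∑ j, (z j * y j) ^ p * (d (z j) / z j) -
    ∑ j, (z j * y j) * (d (z j) / z j) := ⟨_, rfl⟩
  have h1 : a = ∑ j, (a * z j) * y j := by
    have : ∑ j, (a * z j) * y j = a * ∑ j, z j * y j := by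
      rw [Finset.mul_sum]
      exact Finset.sum_congr rfl fun j _ => by ring
    rw [this, hzy, mul_one]
  rw [← ha, h1]
  refine sum_mem fun j _ => prod_mem_range h ?_ (hy j)
  have h2 := I.sub_mem (mem_K h d hd z y hz hy hzy (z j) (hz j))
    (mem_N (p := p) h d hd z y hz hy hzy (z j) (hz j))
  have h3 : a * z j = (d (z j) - z j * ∑ j, (z j * y j) * (d (z j) / z j)) -
      (d (z j) - z j * ∑ j, (z j * y j) ^ p * (d (z j) / z j)) := by
    rw [ha]
    ring
  rw [h3]
  exact h2

end pou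

end Pool.Agent.K3h4.AS
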